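import Mathlib

/-!
# Small finite sets have elements which are not midpoints
-/

set_option autoImplicit false

namespace Pool.Agent.KMid

open Finset

/-- at most one entry `1` and at most one entry `-1` (which may be at the same place) -/
def Row {n : ℕ} (v : Fin n → ℤ) : Prop :=
  ∃ A B : Finset (Fin n), A.card ≤ 1 ∧ B.card ≤ 1 ∧
    ∀ j, v j = (if j ∈ A then 1 else 0) - (if j ∈ B then 1 else 0)

theorem Row.comp {n m : ℕ} {v : Fin n → ℤ} (h : Row v) {e : Fin m → Fin n}
    (he : Function.Injective e) : Row (fun j => v (e j)) := by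
  classical
  obtain ⟨A, B, hA, hB, hv⟩ := h
  refine ⟨univ.filter fun j => e j ∈ A, univ.filter fun j => e j ∈ B, ?_, ?_, ?_⟩
  · refine le_trans (Finset.card_le_card_of_injOn e ?_ he.injOn) hA
    intro j hj
    exact (Finset.mem_filter.1 hj).2
  · refine le_trans (Finset.card_le_card_of_injOn e ?_ he.injOn) hB
    intro j hj
    exact (Finset.mem_filter.1 hj).2
  · intro j
    simp [hv]

theorem det_row (n : ℕ) : ∀ M : Matrix (Fin n) (Fin n) ℤ, (∀ i, Row (M i)) → |M.det| ≤ 1 := by
  classical
  induction n with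
  | zero => intro M _; simp
  | succ n ih =>
    intro M hM
    by_cases hz : ∀ i, ∑ j, M i j = 0
    · have h0 : M.det = 0 := by
        rw [← Matrix.exists_mulVec_eq_zero_iff]
        refine ⟨fun _ => 1, ?_, ?_⟩
        · intro h
          have := congrFun h 0
          simp at this
        · ext i
          simp [Matrix.mulVec, dotProduct, hz i]
      rw [h0]; norm_num
    · push Not at hz
      obtain ⟨i, hi⟩ := hz
      have h1 : ∃ j0, |M i j0| ≤ 1 ∧ ∀ j, j ≠ j0 → M i j = 0 := by
        obtain ⟨A, B, hA, hB, hv⟩ := hM i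
        have hsum : ∑ j, M i j = (A.card : ℤ) - B.card := by
          simp [hv, Finset.sum_sub_distrib]
        rcases Nat.eq_zero_or_pos A.card with h | h
        · have hA0 : A = ∅ := Finset.card_eq_zero.1 h
          have hB1 : B.card = 1 := by
            rcases Nat.eq_zero_or_pos B.card with h' | h'
            · exfalso; apply hi; rw [hsum, h, h']; simp
            · omega
          obtain ⟨j0, hj0⟩ := Finset.card_eq_one.1 hB1
          refine ⟨j0, ?_, ?_⟩
          · rw [hv, hA0, hj0]; simp
          · intro j hj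
            rw [hv, hA0, hj0]; simp [hj]
        · have hA1 : A.card = 1 := by omega
          have hB0 : B.card = 0 := by
            by_contra hne
            have : B.card = 1 := by omega
            apply hi; rw [hsum, hA1, this]; simp
          have hB0' : B = ∅ := Finset.card_eq_zero.1 hB0
          obtain ⟨j0, hj0⟩ := Finset.card_eq_one.1 hA1
          refine ⟨j0, ?_, ?_⟩
          · rw [hv, hB0', hj0]; simp
          · intro j hj
            rw [hv, hB0', hj0]; simp [hj]
      obtain ⟨j0, hj1, hj2⟩ := h1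
      rw [Matrix.det_succ_row M i, Finset.sum_eq_single j0]
      · have h3 := ih (M.submatrix i.succAbove j0.succAbove) (by
          intro k
          exact (hM (i.succAbove k)).comp Fin.succAbove_right_injective)
        rw [abs_mul, abs_mul, abs_pow, abs_neg, abs_one, one_pow, one_mul]
        exact mul_le_one₀ hj1 (abs_nonneg _) h3
      · intro j _ hj
        rw [hj2 j hj, mul_zero, zero_mul]
      · intro h
        exact absurd (Finset.mem_univ _) h

theorem det_add (n : ℕ) (u v : Fin n → Fin n → ℤ) (hu : ∀ i, Row (u i)) (hv : ∀ i, Row (v i)) :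
    |(Matrix.of fun i j => u i j + v i j).det| ≤ 2 ^ n := by
  classical
  have h1 := (Matrix.detRowAlternating (R := ℤ) (n := Fin n)).toMultilinearMap.map_add_univ u v
  have h2 : (Matrix.of fun i j => u i j + v i j).det =
      ∑ s : Finset (Fin n), (Matrix.of (s.piecewise u v)).det := h1
  rw [h2]
  refine le_trans (Finset.abs_sum_le_sum_abs _ _) ?_
  have h3 : ∀ s ∈ (Finset.univ : Finset (Finset (Fin n))),
      |(Matrix.of (s.piecewise u v)).det| ≤ 1 := by
    intro s _
    refine det_row n _ ?_
    intro i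
    by_cases hi : i ∈ s
    · have : Matrix.of (s.piecewise u v) i = u i := by
        ext j; simp [Finset.piecewise, hi]
      rw [this]; exact hu i
    · have : Matrix.of (s.piecewise u v) i = v i := by
        ext j; simp [Finset.piecewise, hi]
      rw [this]; exact hv i
  refine le_trans (Finset.sum_le_card_nsmul _ _ 1 h3) ?_
  simp [Fintype.card_finset]

/-- The linear system of the midpoints: if all elements of `T` but one, `r`, are midpoints of
elements of `T` and no nonempty subset of `T` without `r` has this property, then `T` is `{r}`. -/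
theorem core {G : Type*} [AddCommGroup G] {d : ℕ} {T : Finset G} {r : G} (hr : r ∈ T)
    (hd : T.card ≤ d)
    (hG : ∀ g : G, ∀ m : ℕ, 0 < m → 2 * m ≤ 2 ^ d → m • g = 0 → g = 0) (a : G → G)
    (hTcl : ∀ t ∈ T, t ≠ r → a t ∈ T ∧ t + t - a t ∈ T)
    (hmin : ∀ C : Finset G, C ⊆ T → r ∉ C → C.Nonempty →
      ¬ ∀ t ∈ C, a t ∈ C ∧ t + t - a t ∈ C) : ∀ t ∈ T, t = r := by
  classical
  set T' := T.erase r with hT'
  set n := T'.card with hn
  have hTn : T.card = n + 1 := by
    rw [hn, hT', Finset.card_erase_of_mem hr]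
    have := Finset.card_pos.2 ⟨r, hr⟩
    omega
  let e := T'.equivFin
  let z : Fin n → G := fun i => (e.symm i : G)
  have hzinj : Function.Injective z := by
    intro i j h
    exact e.symm.injective (Subtype.ext h)
  have hzT : ∀ i, z i ∈ T := fun i => Finset.mem_of_mem_erase (e.symm i).2
  have hzr : ∀ i, z i ≠ r := fun i => (Finset.mem_erase.1 (e.symm i).2).1
  have hzsurj : ∀ t ∈ T, t ≠ r → ∃ i, z i = t := by
    intro t ht htr
    refine ⟨e ⟨t, Finset.mem_erase.2 ⟨htr, ht⟩⟩, ?_⟩
    simp [z]
  let ρ : G → Fin n → ℤ := fun t j => if z j = t then 1 else 0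
  have hρ : ∀ s t : G, Row (fun j => ρ s j - ρ t j) := by
    intro s t
    have hc : ∀ s : G, (univ.filter fun j => z j = s).card ≤ 1 := by
      intro s
      rw [Finset.card_le_one]
      intro i hi j hj
      exact hzinj ((Finset.mem_filter.1 hi).2.trans (Finset.mem_filter.1 hj).2.symm)
    refine ⟨univ.filter fun j => z j = s, univ.filter fun j => z j = t, hc s, hc t, ?_⟩
    intro j
    simp [ρ]
  let b : G → G := fun t => t + t - a t
  let M : Matrix (Fin n) (Fin n) ℤ :=
    Matrix.of fun i j => (ρ (z i) j - ρ (a (z i)) j) + (ρ (z i) j - ρ (b (z i)) j)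
  have hdet : |M.det| ≤ 2 ^ n :=
    det_add n (fun i j => ρ (z i) j - ρ (a (z i)) j) (fun i j => ρ (z i) j - ρ (b (z i)) j)
      (fun i => hρ _ _) (fun i => hρ _ _)
  -- the determinant is not zero
  have hdet0 : M.det ≠ 0 := by
    intro h0
    rw [← Matrix.exists_mulVec_eq_zero_iff] at h0
    obtain ⟨w, hw0, hw⟩ := h0
    let h : G → ℤ := fun t => ∑ j, ρ t j * w j
    have hhr : h r = 0 := by
      refine Finset.sum_eq_zero ?_
      intro j _
      simp [ρ, hzr j]
    have hhz : ∀ i, h (z i) = w i := by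
      intro i
      simp only [h, ρ]
      rw [Finset.sum_eq_single i]
      · simp
      · intro j _ hj
        rw [if_neg (fun h => hj (hzinj h)), zero_mul]
      · intro h
        exact absurd (Finset.mem_univ _) h
    have hharm : ∀ i, 2 * h (z i) = h (a (z i)) + h (b (z i)) := by
      intro i
      have h1 := congrFun hw i
      simp only [Matrix.mulVec, dotProduct, M, Matrix.of_apply, Pi.zero_apply] at h1
      have h2 : ∑ j, (ρ (z i) j - ρ (a (z i)) j + (ρ (z i) j - ρ (b (z i)) j)) * w j =
          2 * h (z i) - (h (a (z i)) + h (b (z i))) := by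
        simp only [h, Finset.mul_sum, ← Finset.sum_add_distrib, ← Finset.sum_sub_distrib]
        refine Finset.sum_congr rfl ?_
        intro j _
        ring
      rw [h2] at h1
      linarith
    obtain ⟨t0, ht0, hmax⟩ := Finset.exists_max_image T (fun t => |h t|) ⟨r, hr⟩
    have hpos : 0 < |h t0| := by
      obtain ⟨i, hi⟩ := Function.ne_iff.1 hw0
      have h1 := hmax (z i) (hzT i)
      rw [hhz] at h1
      have h2 : 0 < |w i| := abs_pos.2 hi
      omega
    let C := T.filter fun t => |h t| = |h t0|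
    have hrC : r ∉ C := by
      intro hrC
      have h1 := (Finset.mem_filter.1 hrC).2
      rw [hhr, abs_zero] at h1
      omega
    have hCcl : ∀ t ∈ C, a t ∈ C ∧ t + t - a t ∈ C := by
      intro t ht
      have ht1 := (Finset.mem_filter.1 ht).1
      have ht2 := (Finset.mem_filter.1 ht).2
      have htr : t ≠ r := fun h => hrC (h ▸ ht)
      obtain ⟨i, rfl⟩ := hzsurj t ht1 htr
      obtain ⟨h1, h2⟩ := hTcl _ ht1 htr
      have h3 := hmax _ h1
      have h4 := hmax _ h2
      have h5 := hharm i
      have h6 : 2 * |h t0| ≤ |h (a (z i))| + |h (b (z i))| := by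
        have h7 : |2 * h (z i)| ≤ |h (a (z i))| + |h (b (z i))| := by
          rw [h5]; exact abs_add_le _ _
        rw [abs_mul, ht2] at h7
        simpa using h7
      change |h (b (z i))| ≤ _ at h4
      refine ⟨Finset.mem_filter.2 ⟨h1, ?_⟩, Finset.mem_filter.2 ⟨h2, ?_⟩⟩
      · omega
      · change |h (b (z i))| = _
        omega
    exact hmin C (Finset.filter_subset _ _) hrC ⟨t0, Finset.mem_filter.2 ⟨ht0, rfl⟩⟩ hCcl
  -- conclusion
  have hzero : ∀ k, M.det • (z k - r) = 0 := by
    intro k
    have hρs : ∀ t ∈ T, ∑ j, ρ t j • (z j - r) = t - r := by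
      intro t ht
      by_cases htr : t = r
      · subst htr
        rw [sub_self]
        refine Finset.sum_eq_zero ?_
        intro j _
        simp [ρ, hzr j]
      · obtain ⟨i, rfl⟩ := hzsurj t ht htr
        rw [Finset.sum_eq_single i]
        · simp [ρ]
        · intro j _ hj
          simp only [ρ]
          rw [if_neg (fun h => hj (hzinj h)), zero_smul]
        · intro h
          exact absurd (Finset.mem_univ _) h
    have hrow : ∀ i, ∑ j, M i j • (z j - r) = 0 := by
      intro i
      have h1 : ∑ j, M i j • (z j - r) =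
          (∑ j, ρ (z i) j • (z j - r)) - (∑ j, ρ (a (z i)) j • (z j - r)) +
          ((∑ j, ρ (z i) j • (z j - r)) - (∑ j, ρ (b (z i)) j • (z j - r))) := by
        rw [← Finset.sum_sub_distrib, ← Finset.sum_sub_distrib, ← Finset.sum_add_distrib]
        refine Finset.sum_congr rfl ?_
        intro j _
        simp only [M, Matrix.of_apply, add_smul, sub_smul]
      obtain ⟨h2, h3⟩ := hTcl _ (hzT i) (hzr i)
      rw [h1, hρs _ (hzT i), hρs _ h2, hρs _ h3]
      change z i - r - (a (z i) - r) + (z i - r - (z i + z i - a (z i) - r)) = 0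
      abel
    have h1 : ∑ i, M.adjugate k i • ∑ j, M i j • (z j - r) = 0 := by
      simp only [hrow, smul_zero, Finset.sum_const_zero]
    have h2 : ∑ i, M.adjugate k i • ∑ j, M i j • (z j - r) =
        ∑ j, (M.adjugate * M) k j • (z j - r) := by
      have h3 : ∀ j, (M.adjugate * M) k j • (z j - r) =
          ∑ i, M.adjugate k i • M i j • (z j - r) := by
        intro j
        rw [Matrix.mul_apply, Finset.sum_smul]
        refine Finset.sum_congr rfl ?_
        intro i _
        rw [smul_smul]
      rw [Finset.sum_congr rfl fun j _ => h3 j, Finset.sum_comm]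
      refine Finset.sum_congr rfl ?_
      intro i _
      rw [Finset.smul_sum]
    rw [h2, Matrix.adjugate_mul] at h1
    rw [Finset.sum_eq_single k] at h1
    · simpa using h1
    · intro j _ hj
      simp [Ne.symm hj]
    · intro h
      exact absurd (Finset.mem_univ _) h
  intro t ht
  by_contra htr
  obtain ⟨k, hk⟩ := hzsurj t ht htr
  have h3 := hzero k
  have h4 : (M.det.natAbs) • (z k - r) = 0 := by
    have h5 : (M.det.natAbs : ℤ) • (z k - r) = 0 := by
      rcases Int.natAbs_eq M.det with h | h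
      · rw [← h]; exact h3
      · have : (M.det.natAbs : ℤ) = -M.det := by omega
        rw [this, neg_smul, h3, neg_zero]
    rwa [natCast_zsmul] at h5
  have h6 : n + 1 ≤ d := by rw [← hTn]; exact hd
  have h7 : M.det.natAbs ≤ 2 ^ n := by
    have : ((M.det.natAbs : ℕ) : ℤ) ≤ ((2 ^ n : ℕ) : ℤ) := by
      rw [Int.natCast_natAbs]
      exact_mod_cast hdet
    exact_mod_cast this
  have h8 : 2 * M.det.natAbs ≤ 2 ^ d := by
    calc 2 * M.det.natAbs ≤ 2 * 2 ^ n := by omega
      _ = 2 ^ (n + 1) := by ring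
      _ ≤ 2 ^ d := Nat.pow_le_pow_right (by norm_num) h6
  have h9 := hG _ _ (Int.natAbs_pos.2 hdet0) h8 h4
  exact hzr k (sub_eq_zero.1 h9)

/-- `t` is not the midpoint of two other elements of `Y` -/
def NM {G : Type*} [AddCommGroup G] (Y : Finset G) (t : G) : Prop :=
  ∀ x ∈ Y, x ≠ t → t + t - x ∉ Y

/-- In an abelian group without nonzero elements of order at most `2 ^ (d - 1)`, no nonempty
set of at most `d` elements consists of midpoints of its elements. -/
theorem no_closed {G : Type*} [AddCommGroup G] {d : ℕ} (Y : Finset G) (hY : Y.Nonempty)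
    (hd : Y.card ≤ d)
    (hG : ∀ g : G, ∀ m : ℕ, 0 < m → 2 * m ≤ 2 ^ d → m • g = 0 → g = 0) (a : G → G)
    (ha : ∀ t ∈ Y, a t ∈ Y ∧ t + t - a t ∈ Y) (hne : ∀ t ∈ Y, a t ≠ t) : False := by
  classical
  let P : ℕ → Prop := fun n => ∃ T : Finset G, T ⊆ Y ∧ T.Nonempty ∧
    (∀ t ∈ T, a t ∈ T ∧ t + t - a t ∈ T) ∧ T.card = n
  have hP : ∃ n, P n := ⟨Y.card, Y, Finset.Subset.refl _, hY, ha, rfl⟩
  obtain ⟨T, hTY, hTne, hTcl, hTcard⟩ := Nat.find_spec hP
  obtain ⟨r, hr⟩ := hTne
  have h := core hr (le_trans (Finset.card_le_card hTY) hd) hG a (fun t ht _ => hTcl t ht) (by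
    intro C hC hrC hCne hCcl
    have h1 : Nat.find hP ≤ C.card := Nat.find_min' hP ⟨C, hC.trans hTY, hCne, hCcl, rfl⟩
    have h2 : C.card < T.card := Finset.card_lt_card ⟨hC, fun h => hrC (h hr)⟩
    omega)
  exact hne r (hTY hr) (h _ (hTcl r hr).1)

/-- ... and a set with at least two elements has two elements which are not midpoints. -/
theorem two_nm {G : Type*} [AddCommGroup G] {d : ℕ} (Y : Finset G) (hY : 2 ≤ Y.card)
    (hd : Y.card ≤ d)
    (hG : ∀ g : G, ∀ m : ℕ, 0 < m → 2 * m ≤ 2 ^ d → m • g = 0 → g = 0) :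
    ∃ s ∈ Y, ∃ t ∈ Y, s ≠ t ∧ NM Y s ∧ NM Y t := by
  classical
  by_contra hcon
  have hex : ∃ r ∈ Y, ∀ t ∈ Y, t ≠ r → ¬ NM Y t := by
    by_cases h : ∃ r ∈ Y, NM Y r
    · obtain ⟨r, hr, hr'⟩ := h
      exact ⟨r, hr, fun t ht htr htn => hcon ⟨t, ht, r, hr, htr, htn, hr'⟩⟩
    · obtain ⟨r, hr⟩ := Finset.card_pos.1 (show 0 < Y.card by omega)
      exact ⟨r, hr, fun t ht _ htn => h ⟨t, ht, htn⟩⟩
  obtain ⟨r, hr, hall⟩ := hex
  have h1 : ∀ t, ∃ x, t ∈ Y → t ≠ r → x ∈ Y ∧ x ≠ t ∧ t + t - x ∈ Y := by
    intro t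
    by_cases ht : t ∈ Y ∧ t ≠ r
    · have h2 := hall t ht.1 ht.2
      unfold NM at h2
      push Not at h2
      obtain ⟨x, hx1, hx2, hx3⟩ := h2
      exact ⟨x, fun _ _ => ⟨hx1, hx2, hx3⟩⟩
    · exact ⟨t, fun h h' => absurd ⟨h, h'⟩ ht⟩
  choose a ha using h1
  have h := core hr hd hG a (fun t ht htr => ⟨(ha t ht htr).1, (ha t ht htr).2.2⟩) (by
    intro C hC hrC hCne hCcl
    exact no_closed C hCne (le_trans (Finset.card_le_card hC) hd) hG a hCcl
      fun t ht => (ha t (hC ht) fun h => hrC (h ▸ ht)).2.1)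
  have h2 : Y.card ≤ 1 := by
    rw [Finset.card_le_one]
    intro x hx y hy
    rw [h x hx, h y hy]
  omega

end Pool.Agent.KMid
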