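import Pool.Agent.H24.Krek.Final
import Pool.Agent.KMid.Det

/-!
# Elimination of whole layers of elements which are not midpoints
-/

set_option autoImplicit false

namespace Pool.Agent.KMid

open Pool.Agent.H75.Krek Pool.Agent.H24.Krek

variable {G : Type*} [AddCommGroup G]

/-- A word which is dead over `S \ B` is dead over `S` in a context as soon as all the words
with the same length bound visiting `B` are. -/
theorem dead_ctx {S B : Set G} {A : List G} (h : Dead (S \ B) A) (l r : List G)
    (H : ∀ A' : List G, (∃ t ∈ B, t ∈ A') → Dead S (l ++ A' ++ r)) : Dead S (l ++ A ++ r) := by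
  induction h with
  | out l₁ x l₂ hx =>
    by_cases hxt : x ∈ B
    · exact H _ ⟨x, hxt, by simp⟩
    · exact (Dead.out l₁ x l₂ fun h => hx ⟨h, hxt⟩).factor l r
  | stay l₁ x l₂ => exact (Dead.stay l₁ x l₂).factor l r
  | step l₁ x y z l₂ _ _ ih1 ih2 =>
    have e : l ++ (l₁ ++ x :: y :: z :: l₂) ++ r = (l ++ l₁) ++ x :: y :: z :: (l₂ ++ r) := by
      simp
    have e1 : l ++ (l₁ ++ x :: (x + z - y) :: z :: l₂) ++ r =
        (l ++ l₁) ++ x :: (x + z - y) :: z :: (l₂ ++ r) := by simp
    have e2 : l ++ (l₁ ++ x :: z :: l₂) ++ r = (l ++ l₁) ++ x :: z :: (l₂ ++ r) := by simp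
    rw [e]
    refine Dead.step _ _ _ _ _ ?_ ?_
    · rw [← e1]
      exact ih1
    · rw [← e2]
      exact ih2

/-- Elimination of a set of vertices which are not midpoints. -/
theorem won_layer {S : Set G} (B : Finset G) {N : ℕ} (hW : Won (S \ (B : Set G)) N)
    (ht : ∀ t ∈ B, ∀ x ∈ S, x ≠ t → t + t - x ∉ S) : Won S ((B.card + 1) * (N + 1) - 1) := by
  classical
  have key : ∀ m : ℕ, ∀ B' ⊆ B, B.card = B'.card + m → ∀ l r : List G, (∀ t ∈ B', t ∈ l) →
      (m + 1) * (N + 1) ≤ r.length → Dead S (l ++ r) := by
    intro m
    induction m with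
    | zero =>
      intro B' hB' hc l r hl hr
      have hBB : B' = B := Finset.eq_of_subset_of_card_le hB' (by omega)
      subst hBB
      have h1 : Dead (S \ (B' : Set G)) (r.take (N + 1)) :=
        hW _ (by rw [List.length_take]; omega)
      have h2 : Dead S (l ++ r.take (N + 1) ++ r.drop (N + 1)) := by
        refine dead_ctx h1 l _ ?_
        rintro A' ⟨t, htB, htA⟩
        have htl := hl t htB
        obtain ⟨a, b, rfl⟩ := List.append_of_mem htl
        obtain ⟨a', b', rfl⟩ := List.append_of_mem htA
        have := twice_dead (ht t htB) a (b ++ a') (b' ++ r.drop (N + 1))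
        simpa using this
      rwa [List.append_assoc, List.take_append_drop] at h2
    | succ m ih =>
      intro B' hB' hc l r hl hr
      have e0 : (m + 1 + 1) * (N + 1) = (m + 1) * (N + 1) + (N + 1) := by ring
      have h1 : Dead (S \ (B : Set G)) (r.take (N + 1)) :=
        hW _ (by rw [List.length_take]; omega)
      have h2 : Dead S (l ++ r.take (N + 1) ++ r.drop (N + 1)) := by
        refine dead_ctx h1 l _ ?_
        rintro A' ⟨t, htB, htA⟩
        by_cases htB' : t ∈ B'
        · have htl := hl t htB'
          obtain ⟨a, b, rfl⟩ := List.append_of_mem htl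
          obtain ⟨a', b', rfl⟩ := List.append_of_mem htA
          have := twice_dead (ht t htB) a (b ++ a') (b' ++ r.drop (N + 1))
          simpa using this
        · refine ih (insert t B') (Finset.insert_subset htB hB') ?_ (l ++ A') _ ?_ ?_
          · rw [Finset.card_insert_of_notMem htB', hc]; omega
          · intro u hu
            rcases Finset.mem_insert.1 hu with rfl | hu
            · exact List.mem_append_right _ htA
            · exact List.mem_append_left _ (hl u hu)
          · rw [List.length_drop]; omega
      rwa [List.append_assoc, List.take_append_drop] at h2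
  intro w hw
  have h := key B.card ∅ (Finset.empty_subset _) (by simp) [] w (by simp) (by omega)
  simpa using h

/-- Layers: no element of `B i` is the midpoint of two other elements of
`B i ∪ B (i + 1) ∪ ⋯ ∪ B (k - 1)`. -/
theorem won_layers (k : ℕ) : ∀ B : ℕ → Finset G,
    (∀ i < k, ∀ t ∈ B i, ∀ j, i ≤ j → j < k → ∀ x ∈ B j, x ≠ t →
      ∀ j', i ≤ j' → j' < k → t + t - x ∉ B j') →
    Won {x : G | ∃ j < k, x ∈ B j} ((∏ i ∈ Finset.range k, ((B i).card + 1)) - 1) := by
  classical
  induction k with
  | zero =>
    intro B _ w hw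
    obtain ⟨a, l, rfl⟩ : ∃ a l, w = a :: l := by
      cases w with
      | nil => simp at hw
      | cons a l => exact ⟨a, l, rfl⟩
    exact Dead.out [] a l (by simp)
  | succ k ih =>
    intro B hB
    have h1 := ih (fun i => B (i + 1)) (by
      intro i hi t ht j hij hj x hx hxt j' hij' hj'
      exact hB (i + 1) (by omega) t ht (j + 1) (by omega) (by omega) x hx hxt (j' + 1)
        (by omega) (by omega))
    have h2 : Won ({x : G | ∃ j < k + 1, x ∈ B j} \ (B 0 : Set G))
        ((∏ i ∈ Finset.range k, ((B (i + 1)).card + 1)) - 1) := by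
      refine h1.mono ?_ le_rfl
      rintro x ⟨⟨j, hj, hx⟩, hx0⟩
      rcases j with _ | j
      · exact absurd hx hx0
      · exact ⟨j, by omega, hx⟩
    have h3 := won_layer (B 0) h2 (by
      rintro t ht x ⟨j, hj, hx⟩ hxt ⟨j', hj', hx'⟩
      exact hB 0 (by omega) t ht j (by omega) hj x hx hxt j' (by omega) hj' hx')
    refine h3.mono le_rfl ?_
    rw [Finset.prod_range_succ']
    have hpos : 1 ≤ ∏ i ∈ Finset.range k, ((B (i + 1)).card + 1) :=
      Finset.one_le_prod' fun i _ => by omega
    have e : (∏ i ∈ Finset.range k, ((B (i + 1)).card + 1)) - 1 + 1 =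
        ∏ i ∈ Finset.range k, ((B (i + 1)).card + 1) := by omega
    rw [e, mul_comm]

/-- Two elements at a time. -/
theorem won_two {d : ℕ}
    (hG : ∀ g : G, ∀ m : ℕ, 0 < m → 2 * m ≤ 2 ^ d → m • g = 0 → g = 0) (c : ℕ) :
    ∀ S : Finset G, S.card = c → c ≤ d → Won (S : Set G) ((c % 2 + 1) * 3 ^ (c / 2) - 1) := by
  classical
  induction c using Nat.strong_induction_on with
  | _ c ih =>
    intro S hS hcd
    by_cases hc : c < 2
    · interval_cases c
      · have hS0 : S = ∅ := Finset.card_eq_zero.1 hS
        subst hS0
        intro w hw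
        obtain ⟨a, l, rfl⟩ : ∃ a l, w = a :: l := by
          cases w with
          | nil => simp at hw
          | cons a l => exact ⟨a, l, rfl⟩
        exact Dead.out [] a l (by simp)
      · obtain ⟨s, rfl⟩ := Finset.card_eq_one.1 hS
        have h0 : Won ((({s} : Finset G) : Set G) \ (({s} : Finset G) : Set G)) 0 := by
          intro w hw
          obtain ⟨a, l, rfl⟩ : ∃ a l, w = a :: l := by
            cases w with
            | nil => simp at hw
            | cons a l => exact ⟨a, l, rfl⟩
          exact Dead.out [] a l (by simp)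
        have h := won_layer {s} h0 (by
          intro t ht x hx hxt
          rw [Finset.mem_singleton] at ht
          subst ht
          exact absurd (by simpa using hx) hxt)
        simpa using h
    · push Not at hc
      obtain ⟨s, hs, t, ht, hst, hs1, ht1⟩ := two_nm S (by omega) (by omega) hG
      have hsub : ({s, t} : Finset G) ⊆ S := by
        intro x hx
        rcases Finset.mem_insert.1 hx with rfl | hx
        · exact hs
        · rw [Finset.mem_singleton] at hx; subst hx; exact ht
      have hcard : (S \ {s, t}).card = c - 2 := by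
        rw [Finset.card_sdiff_of_subset hsub, Finset.card_pair hst, hS]
      have h1 := ih (c - 2) (by omega) (S \ {s, t}) hcard (by omega)
      rw [Finset.coe_sdiff] at h1
      have h2 := won_layer {s, t} h1 (by
        intro u hu x hx hxu
        rcases Finset.mem_insert.1 hu with rfl | hu
        · exact fun h => hs1 x hx hxu h
        · rw [Finset.mem_singleton] at hu
          subst hu
          exact fun h => ht1 x hx hxu h)
      rw [Finset.card_pair hst] at h2
      refine h2.mono le_rfl ?_
      obtain ⟨m, rfl⟩ : ∃ m, c = m + 2 := ⟨c - 2, by omega⟩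
      have e1 : m + 2 - 2 = m := by omega
      have e2 : (m + 2) % 2 = m % 2 := by omega
      have e3 : (m + 2) / 2 = m / 2 + 1 := by omega
      rw [e1, e2, e3, pow_succ]
      have hpos : 1 ≤ (m % 2 + 1) * 3 ^ (m / 2) := Nat.mul_pos (by omega) (by positivity)
      have e4 : (m % 2 + 1) * 3 ^ (m / 2) - 1 + 1 = (m % 2 + 1) * 3 ^ (m / 2) := by omega
      rw [e4]
      have e5 : (2 + 1) * ((m % 2 + 1) * 3 ^ (m / 2)) = (m % 2 + 1) * (3 ^ (m / 2) * 3) := by
        ring
      rw [e5]

end Pool.Agent.KMid
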